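import Mathlib

/-!
# The number of isolated points of a real algebraic set (counting part)
-/

set_option autoImplicit false

namespace Pool.Agent.U338.HC

open MvPolynomial

/-- the evaluation map at the points of `T` -/
noncomputable def evT {d : ℕ} (T : Finset (Fin d → ℝ)) : MvPolynomial (Fin d) ℝ →ₗ[ℝ] (T → ℝ) where
  toFun p x := eval x.1 p
  map_add' p q := by funext x; simp
  map_smul' c p := by funext x; simp [smul_eval]

lemma evT_apply {d : ℕ} (T : Finset (Fin d → ℝ)) (p : MvPolynomial (Fin d) ℝ) (x : T) :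
    evT T p x = eval x.1 p := rfl

/-- the span of the reduced monomials -/
noncomputable def WT {d : ℕ} (m : ℕ) (T : Finset (Fin d → ℝ)) : Submodule ℝ (T → ℝ) :=
  Submodule.span ℝ (Set.range fun α : Fin d → Fin m =>
    evT T (monomial (Finsupp.equivFunOnFinite.symm fun i => ((α i : ℕ))) 1))

lemma mono_mem {d m : ℕ} (h : Fin d → MvPolynomial (Fin d) ℝ)
    (hdeg : ∀ i, (h i).totalDegree < m) (T : Finset (Fin d → ℝ))
    (hT : ∀ x ∈ T, ∀ i, x i ^ m = eval x (h i)) :
    ∀ N : ℕ, ∀ α : Fin d →₀ ℕ, α.degree ≤ N → evT T (monomial α 1) ∈ WT m T := by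
  intro N
  induction N using Nat.strong_induction_on with
  | _ N ih =>
  intro α hα
  by_cases hlt : ∀ i, α i < m
  · refine Submodule.subset_span ⟨fun i => ⟨α i, hlt i⟩, ?_⟩
    simp only
    congr 2
    ext i
    simp
  · push Not at hlt
    obtain ⟨i, hi⟩ := hlt
    set β : Fin d →₀ ℕ := α - Finsupp.single i m with hβ
    have hαβ : α = β + Finsupp.single i m := by
      rw [hβ]
      ext j
      simp only [Finsupp.coe_add, Finsupp.coe_tsub, Pi.add_apply, Pi.sub_apply]
      by_cases hj : j = i
      · subst hj; simp; omega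
      · simp [Ne.symm hj]
    have hdegα : α.degree = β.degree + m := by
      rw [hαβ, map_add, Finsupp.degree_single]
    have h1 : evT T (monomial α 1) = evT T (monomial β 1 * h i) := by
      funext x
      rw [evT_apply, evT_apply, map_mul, ← hT x.1 x.2 i, hαβ, monomial_add_single, map_mul, map_pow,
        eval_X]
    rw [h1]
    conv => rw [(h i).as_sum, Finset.mul_sum, map_sum]
    refine Submodule.sum_mem _ fun δ hδ => ?_
    rw [monomial_mul, one_mul, ← mul_one (coeff δ (h i)), ← smul_eq_mul, ← smul_monomial, map_smul]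
    refine Submodule.smul_mem _ _ ?_
    have hδd : δ.degree ≤ (h i).totalDegree := by
      have := le_totalDegree hδ
      exact this
    have := hdeg i
    refine ih (β + δ).degree ?_ (β + δ) le_rfl
    rw [map_add]
    omega

lemma evT_mem {d m : ℕ} (h : Fin d → MvPolynomial (Fin d) ℝ)
    (hdeg : ∀ i, (h i).totalDegree < m) (T : Finset (Fin d → ℝ))
    (hT : ∀ x ∈ T, ∀ i, x i ^ m = eval x (h i)) (p : MvPolynomial (Fin d) ℝ) :
    evT T p ∈ WT m T := by
  rw [p.as_sum, map_sum]
  refine Submodule.sum_mem _ fun δ _ => ?_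
  rw [← mul_one (coeff δ p), ← smul_eq_mul, ← smul_monomial, map_smul]
  exact Submodule.smul_mem _ _ (mono_mem h hdeg T hT _ δ le_rfl)

lemma exists_sep {d : ℕ} (x y : Fin d → ℝ) (hxy : y ≠ x) :
    ∃ p : MvPolynomial (Fin d) ℝ, eval x p ≠ 0 ∧ eval y p = 0 := by
  obtain ⟨j, hj⟩ := Function.ne_iff.1 hxy
  refine ⟨X j - C (y j), ?_, ?_⟩
  · simp only [map_sub, eval_X, eval_C]
    exact sub_ne_zero.2 (Ne.symm hj)
  · simp

lemma exists_ind {d : ℕ} (T : Finset (Fin d → ℝ)) (x : Fin d → ℝ) :
    ∃ p : MvPolynomial (Fin d) ℝ, eval x p ≠ 0 ∧ ∀ y ∈ T, y ≠ x → eval y p = 0 := by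
  classical
  choose q hq using fun y : {y : Fin d → ℝ // y ≠ x} => exists_sep x y.1 y.2
  refine ⟨∏ y ∈ T, if hy : y ≠ x then q ⟨y, hy⟩ else 1, ?_, ?_⟩
  · rw [map_prod, Finset.prod_ne_zero_iff]
    intro y _
    by_cases hy : y ≠ x
    · rw [dif_pos hy]; exact (hq ⟨y, hy⟩).1
    · rw [dif_neg hy]; simp
  · intro y hyT hy
    rw [map_prod]
    refine Finset.prod_eq_zero hyT ?_
    rw [dif_pos hy]
    exact (hq ⟨y, hy⟩).2

/-- at most `m ^ d` points satisfy `x_i ^ m = h_i x` with polynomials `h_i` of degree less than `m` -/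
theorem card_le_of_pow_eq {d m : ℕ} (h : Fin d → MvPolynomial (Fin d) ℝ)
    (hdeg : ∀ i, (h i).totalDegree < m) (T : Finset (Fin d → ℝ))
    (hT : ∀ x ∈ T, ∀ i, x i ^ m = eval x (h i)) : T.card ≤ m ^ d := by
  classical
  have htop : WT m T = ⊤ := by
    rw [eq_top_iff]
    intro v _
    have hv : v = ∑ x : T, v x • (Pi.single x 1 : T → ℝ) := by
      funext y
      simp [Finset.sum_apply, Pi.single_apply]
    rw [hv]
    refine Submodule.sum_mem _ fun x _ => Submodule.smul_mem _ _ ?_
    obtain ⟨p, hp1, hp2⟩ := exists_ind T x.1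
    have h2 : (Pi.single x 1 : T → ℝ) = (eval x.1 p)⁻¹ • evT T p := by
      funext y
      by_cases hyx : y = x
      · subst hyx
        simp [evT_apply, hp1]
      · have : y.1 ≠ x.1 := fun h => hyx (Subtype.ext h)
        simp [hyx, evT_apply, hp2 y.1 y.2 this]
    rw [h2]
    exact Submodule.smul_mem _ _ (evT_mem h hdeg T hT p)
  have h1 : Module.finrank ℝ (WT m T) ≤ Fintype.card (Fin d → Fin m) := by
    unfold WT
    exact finrank_range_le_card _
  rw [htop, finrank_top, Module.finrank_fintype_fun_eq_card, Fintype.card_fun, Fintype.card_fin,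
    Fintype.card_fin, Fintype.card_coe] at h1
  exact h1

lemma totalDegree_pderiv_le {d : ℕ} (i : Fin d) (p : MvPolynomial (Fin d) ℝ) :
    (pderiv i p).totalDegree ≤ p.totalDegree := by
  conv_lhs => rw [p.as_sum, map_sum]
  refine (totalDegree_finsetSum _ _).trans (Finset.sup_le fun v hv => ?_)
  rw [pderiv_monomial]
  refine (totalDegree_monomial_le _ _).trans ?_
  have h1 : (v - Finsupp.single i 1).degree ≤ v.degree := by
    apply Finsupp.degree_mono
    exact tsub_le_self
  exact h1.trans (le_totalDegree hv)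

lemma hasDerivAt_eval {d : ℕ} (i : Fin d) (z : Fin d → ℝ) (p : MvPolynomial (Fin d) ℝ) :
    HasDerivAt (fun t : ℝ => eval (Function.update z i t) p) (eval z (pderiv i p)) (z i) := by
  induction p using MvPolynomial.induction_on with
  | C a =>
    simp only [eval_C, pderiv_C, map_zero]
    exact hasDerivAt_const (z i) a
  | add p q hp hq =>
    simp only [map_add]
    exact hp.add hq
  | mul_X p j hp =>
    have h1 : HasDerivAt (fun t : ℝ => Function.update z i t j) (eval z (pderiv i (X j))) (z i) := by
      by_cases hj : j = i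
      · subst hj
        simp only [pderiv_X_self, map_one, Function.update_self]
        exact hasDerivAt_id (z j)
      · simp only [pderiv_X_of_ne hj, map_zero, Function.update_of_ne hj]
        exact hasDerivAt_const (z i) (z j)
    have h2 := hp.mul h1
    have h3 : eval z (pderiv i (p * X j)) = eval z (pderiv i p) * Function.update z i (z i) j +
        eval (Function.update z i (z i)) p * eval z (pderiv i (X j)) := by
      rw [Derivation.leibniz]
      simp only [smul_eq_mul, map_add, map_mul, eval_X, Function.update_eq_self]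
      ring
    rw [h3]
    simp only [map_mul, eval_X]
    exact h2

end Pool.Agent.U338.HC
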