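import Mathlib
import Pool.Agent.U338.HC.A

/-!
# The number of isolated points of a real algebraic set
-/

set_option autoImplicit false

namespace Pool.Agent.U338.HC

open MvPolynomial Filter Topology

/-- the perturbation -/
noncomputable def HH (d D : ℕ) : MvPolynomial (Fin d) ℝ := ∑ j : Fin d, X j ^ (2 * D + 2)

lemma eval_HH {d : ℕ} (D : ℕ) (x : Fin d → ℝ) : eval x (HH d D) = ∑ j : Fin d, x j ^ (2 * D + 2) := by
  simp [HH]

lemma HH_nonneg {d : ℕ} (D : ℕ) (x : Fin d → ℝ) : 0 ≤ eval x (HH d D) := by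
  rw [eval_HH]
  refine Finset.sum_nonneg fun j _ => ?_
  have : Even (2 * D + 2) := ⟨D + 1, by ring⟩
  exact this.pow_nonneg _

lemma eval_pderiv_HH {d : ℕ} (D : ℕ) (x : Fin d → ℝ) (i : Fin d) :
    eval x (pderiv i (HH d D)) = (2 * D + 2) * x i ^ (2 * D + 1) := by
  unfold HH
  rw [map_sum, map_sum, Finset.sum_eq_single i]
  · rw [Derivation.leibniz_pow, pderiv_X_self]
    simp
  · intro j _ hj
    rw [Derivation.leibniz_pow, pderiv_X_of_ne hj]
    simp
  · intro h
    exact absurd (Finset.mem_univ i) h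

lemma crit_of_localMin {d : ℕ} (G : MvPolynomial (Fin d) ℝ) (z : Fin d → ℝ)
    (hz : IsLocalMin (fun x : Fin d → ℝ => eval x G) z) (i : Fin d) :
    eval z (pderiv i G) = 0 := by
  have h1 := hasDerivAt_eval i z G
  have h2 : IsLocalMin (fun t : ℝ => eval (Function.update z i t) G) (z i) := by
    have hc : Tendsto (fun t : ℝ => Function.update z i t) (𝓝 (z i)) (𝓝 z) := by
      have hcont : Continuous fun t : ℝ => Function.update z i t :=
        continuous_const.update i continuous_id
      have := hcont.tendsto (z i)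
      rwa [Function.update_eq_self] at this
    have h3 := hc.eventually hz
    unfold IsLocalMin IsMinFilter
    filter_upwards [h3] with t ht
    rw [Function.update_eq_self]
    exact ht
  exact h2.hasDerivAt_eq_zero h1

/-- a nonnegative polynomial of degree at most `2 D` in `d` variables has at most `(2 D + 1) ^ d`
isolated zeros -/
theorem card_isolated_le {d D : ℕ} (f : MvPolynomial (Fin d) ℝ) (hdeg : f.totalDegree ≤ 2 * D)
    (hf : ∀ x, 0 ≤ eval x f) (T : Finset (Fin d → ℝ))
    (hT : ∀ x ∈ T, eval x f = 0 ∧ ∃ r > 0, ∀ y, y ≠ x → dist y x ≤ r → eval y f ≠ 0) :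
    T.card ≤ (2 * D + 1) ^ d := by
  classical
  have e1 : ∀ᶠ r in 𝓝[>] (0 : ℝ), ∀ x ∈ T, ∀ y, y ≠ x → dist y x ≤ r → eval y f ≠ 0 := by
    rw [Filter.eventually_all_finset]
    intro x hx
    obtain ⟨r, hr, h⟩ := (hT x hx).2
    filter_upwards [Ioc_mem_nhdsGT hr] with s hs y hy hd
    exact h y hy (hd.trans hs.2)
  have e2 : ∀ᶠ r in 𝓝[>] (0 : ℝ), ∀ x ∈ T, ∀ y ∈ T, x ≠ y → 2 * r < dist x y := by
    rw [Filter.eventually_all_finset]
    intro x _
    rw [Filter.eventually_all_finset]
    intro y _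
    by_cases hxy : x = y
    · exact Eventually.of_forall fun r h => absurd hxy h
    · filter_upwards [Ioo_mem_nhdsGT (half_pos (dist_pos.2 hxy))] with s hs _
      linarith [hs.2]
  obtain ⟨r, h1, h2, hr0⟩ := (e1.and (e2.and self_mem_nhdsWithin)).exists
  have hr : 0 < r := hr0
  have hcont := MvPolynomial.continuous_eval f
  have hmu : ∀ x : Fin d → ℝ, ∃ μ : ℝ, x ∈ T → 0 < μ ∧ ∀ y ∈ Metric.sphere x r, μ ≤ eval y f := by
    intro x
    by_cases hx : x ∈ T
    · rcases (Metric.sphere x r).eq_empty_or_nonempty with he | hne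
      · exact ⟨1, fun _ => ⟨one_pos, fun y hy => by rw [he] at hy; exact hy.elim⟩⟩
      · obtain ⟨y0, hy0, hmin⟩ := (isCompact_sphere x r).exists_isMinOn hne hcont.continuousOn
        refine ⟨eval y0 f, fun _ => ⟨?_, fun y hy => hmin hy⟩⟩
        have hd : dist y0 x = r := hy0
        have hne0 : y0 ≠ x := by
          rintro rfl
          rw [dist_self] at hd
          exact hr.ne hd
        exact lt_of_le_of_ne (hf y0) (Ne.symm (h1 x hx y0 hne0 hd.le))
    · exact ⟨0, fun h => absurd h hx⟩
  choose μ hμ using hmu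
  have e3 : ∀ᶠ ζ in 𝓝[>] (0 : ℝ), ∀ x ∈ T, ζ * eval x (HH d D) < μ x := by
    rw [Filter.eventually_all_finset]
    intro x hx
    have ht : Tendsto (fun ζ : ℝ => ζ * eval x (HH d D)) (𝓝[>] 0) (𝓝 (0 * eval x (HH d D))) :=
      ((continuous_id.mul continuous_const).tendsto 0).mono_left nhdsWithin_le_nhds
    rw [zero_mul] at ht
    exact ht.eventually_lt_const (hμ x hx).1
  obtain ⟨ζ, h3, hζ0⟩ := (e3.and self_mem_nhdsWithin).exists
  have hζ : 0 < ζ := hζ0
  set G : MvPolynomial (Fin d) ℝ := f + C ζ * HH d D with hG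
  have hGe : ∀ x, eval x G = eval x f + ζ * eval x (HH d D) := by intro x; simp [hG]
  have hz : ∀ x : Fin d → ℝ, ∃ z : Fin d → ℝ, x ∈ T → dist z x < r ∧ ∀ i, eval z (pderiv i G) = 0 := by
    intro x
    by_cases hx : x ∈ T
    · obtain ⟨z, hzB, hmin⟩ := (isCompact_closedBall x r).exists_isMinOn
        ⟨x, Metric.mem_closedBall_self hr.le⟩ (MvPolynomial.continuous_eval G).continuousOn
      have hzx : dist z x < r := by
        rcases lt_or_eq_of_le (Metric.mem_closedBall.1 hzB) with h | h
        · exact h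
        · exfalso
          have k1 := hmin (Metric.mem_closedBall_self hr.le)
          have k2 := (hμ x hx).2 z h
          have k3 := h3 x hx
          have k4 := HH_nonneg D z
          simp only [hGe] at k1
          simp only [Set.mem_ofPred_eq, (hT x hx).1, zero_add] at k1
          nlinarith [mul_nonneg hζ.le k4]
      refine ⟨z, fun _ => ⟨hzx, fun i => crit_of_localMin G z ?_ i⟩⟩
      refine hmin.isLocalMin ?_
      rw [mem_nhds_iff]
      exact ⟨Metric.ball x r, Metric.ball_subset_closedBall, Metric.isOpen_ball, hzx⟩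
    · exact ⟨0, fun h => absurd h hx⟩
  choose z hz using hz
  have hinj : Set.InjOn z T := by
    intro x hx y hy hxy
    by_contra hne
    have k1 := (hz x hx).1
    have k2 := (hz y hy).1
    have k3 := h2 x hx y hy hne
    rw [← hxy] at k2
    have k4 := dist_triangle_left x y (z x)
    linarith
  have hcard : (T.image z).card = T.card := Finset.card_image_of_injOn hinj
  rw [← hcard]
  have hc0 : ζ * (2 * D + 2) ≠ 0 := by positivity
  refine card_le_of_pow_eq (fun i => C (-(ζ * (2 * D + 2))⁻¹) * pderiv i f) (fun i => ?_)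
    (T.image z) ?_
  · refine lt_of_le_of_lt (totalDegree_mul _ _) ?_
    rw [totalDegree_C, zero_add]
    exact lt_of_le_of_lt ((totalDegree_pderiv_le i f).trans hdeg) (Nat.lt_succ_self _)
  · intro w hw i
    obtain ⟨x, hx, rfl⟩ := Finset.mem_image.1 hw
    have k := (hz x hx).2 i
    rw [hG, map_add, Derivation.leibniz, pderiv_C, smul_zero, add_zero, map_add, smul_eq_mul, map_mul,
      eval_C, eval_pderiv_HH] at k
    rw [map_mul, eval_C]
    field_simp
    linarith

end Pool.Agent.U338.HC
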