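import Mathlib

/-!
# Closed orbits of planar polynomial systems and curves which are tangent to the field
-/

set_option autoImplicit false

namespace Pool.Agent.U338.HC

open MvPolynomial Filter Topology Set

/-- the vector field -/
noncomputable def Xf (P Q : MvPolynomial (Fin 2) ℝ) (p : ℝ × ℝ) : ℝ × ℝ :=
  (eval ![p.1, p.2] P, eval ![p.1, p.2] Q)

/-- `C` is a closed orbit (the image of a nonconstant periodic solution) -/
def IsClosedOrbit (P Q : MvPolynomial (Fin 2) ℝ) (C : Set (ℝ × ℝ)) : Prop :=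
  ∃ γ : ℝ → ℝ × ℝ, ∃ T : ℝ, 0 < T ∧
    (∀ t : ℝ, HasDerivAt γ (eval ![(γ t).1, (γ t).2] P, eval ![(γ t).1, (γ t).2] Q) t) ∧
    (∀ t : ℝ, γ (t + T) = γ t) ∧ (∃ s t : ℝ, γ s ≠ γ t) ∧ C = Set.range γ

/-- the cross product -/
def crs (a b : ℝ × ℝ) : ℝ := a.1 * b.2 - a.2 * b.1

lemma crs_cont : Continuous fun p : (ℝ × ℝ) × (ℝ × ℝ) => crs p.1 p.2 := by
  unfold crs
  fun_prop

lemma contDiff_ev (P : MvPolynomial (Fin 2) ℝ) :
    ContDiff ℝ 1 fun p : ℝ × ℝ => eval ![p.1, p.2] P := by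
  induction P using MvPolynomial.induction_on with
  | C a => simpa using contDiff_const
  | add p q hp hq => simpa using hp.add hq
  | mul_X p j hp =>
    simp only [map_mul, eval_X]
    refine hp.mul ?_
    fin_cases j
    · exact contDiff_fst
    · exact contDiff_snd

lemma contDiff_Xf (P Q : MvPolynomial (Fin 2) ℝ) : ContDiff ℝ 1 (Xf P Q) :=
  (contDiff_ev P).prodMk (contDiff_ev Q)

lemma Xf_cont (P Q : MvPolynomial (Fin 2) ℝ) : Continuous (Xf P Q) := (contDiff_Xf P Q).continuous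

lemma range_eq_image {E : Type} {f : ℝ → E} {T : ℝ} (hT : 0 < T) (hf : ∀ t, f (t + T) = f t) :
    Set.range f = f '' Set.Icc 0 T := by
  apply Set.Subset.antisymm
  · rintro _ ⟨t, rfl⟩
    obtain ⟨y, hy, hy2⟩ := Function.Periodic.exists_mem_Ico₀ (f := f) hf hT t
    exact ⟨y, ⟨hy.1, hy.2.le⟩, hy2.symm⟩
  · rintro _ ⟨t, _, rfl⟩
    exact ⟨t, rfl⟩

lemma range_compact {f : ℝ → ℝ × ℝ} {T : ℝ} (hT : 0 < T) (hf : ∀ t, f (t + T) = f t)
    (hc : Continuous f) : IsCompact (Set.range f) := by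
  rw [range_eq_image hT hf]
  exact isCompact_Icc.image hc

/-- the field does not vanish on a closed orbit -/
lemma ne_zero_of_closedOrbit {P Q : MvPolynomial (Fin 2) ℝ} {γ : ℝ → ℝ × ℝ} {T : ℝ} (hT : 0 < T)
    (hs : ∀ t, HasDerivAt γ (Xf P Q (γ t)) t) (hp : ∀ t, γ (t + T) = γ t)
    (hn : ∃ s t : ℝ, γ s ≠ γ t) (t₀ : ℝ) : Xf P Q (γ t₀) ≠ 0 := by
  intro h0
  have hc : Continuous γ := continuous_iff_continuousAt.2 fun t => (hs t).continuousAt
  have hcomp := range_compact hT hp hc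
  obtain ⟨K, hK⟩ := ((contDiff_Xf P Q).locallyLipschitz.locallyLipschitzOn
    (s := Set.range γ)).exists_lipschitzOnWith_of_compact hcomp
  have h1 : γ = fun _ => γ t₀ := by
    refine ODE_solution_unique_univ (v := fun _ => Xf P Q) (s := fun _ => Set.range γ) (t₀ := t₀)
      (K := K) (fun _ => hK) (fun t => ⟨hs t, ⟨t, rfl⟩⟩) (fun t => ⟨?_, ⟨t₀, rfl⟩⟩) rfl
    rw [h0]
    exact hasDerivAt_const t (γ t₀)
  obtain ⟨s, t, hst⟩ := hn
  apply hst
  rw [h1]

/-- a curve inside a closed orbit is tangent to the field -/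
lemma tangent {P Q : MvPolynomial (Fin 2) ℝ} {x : ℝ → ℝ × ℝ} {T : ℝ} (hT : 0 < T)
    (hs : ∀ t, HasDerivAt x (Xf P Q (x t)) t) (hp : ∀ t, x (t + T) = x t)
    {Γ : ℝ → ℝ × ℝ} {t₀ : ℝ} {w : ℝ × ℝ} (hw : w ≠ 0) (hΓ : HasDerivAt Γ w t₀)
    (hr : ∀ t, Γ t ∈ Set.range x) : crs w (Xf P Q (Γ t₀)) = 0 := by
  have hxc : Continuous x := continuous_iff_continuousAt.2 fun t => (hs t).continuousAt
  -- the times
  have hr' : ∀ t, ∃ u ∈ Set.Icc 0 T, x u = Γ t := by
    intro t
    have := hr t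
    rw [range_eq_image hT hp] at this
    exact this
  choose u hu hxu using hr'
  obtain ⟨tk, -, htk2, htk3⟩ := exists_seq_strictAnti_tendsto t₀
  obtain ⟨us, -, φ, hφ, hlim⟩ := isCompact_Icc.tendsto_subseq (fun k => hu (tk k))
  set a : ℕ → ℝ := fun k => tk (φ k) with ha
  have ha1 : Tendsto a atTop (𝓝 t₀) := htk3.comp hφ.tendsto_atTop
  have ha2 : ∀ k, a k ≠ t₀ := fun k => (htk2 (φ k)).ne'
  have ha3 : Tendsto a atTop (𝓝[≠] t₀) :=
    tendsto_nhdsWithin_iff.2 ⟨ha1, Eventually.of_forall ha2⟩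
  set b : ℕ → ℝ := fun k => u (a k) with hb
  have hb1 : Tendsto b atTop (𝓝 us) := hlim
  have hxb : ∀ k, x (b k) = Γ (a k) := fun k => hxu _
  have hxus : x us = Γ t₀ := by
    have h1 : Tendsto (fun k => x (b k)) atTop (𝓝 (x us)) := (hxc.tendsto us).comp hb1
    have h2 : Tendsto (fun k => Γ (a k)) atTop (𝓝 (Γ t₀)) := hΓ.continuousAt.tendsto.comp ha1
    simp_rw [hxb] at h1
    exact tendsto_nhds_unique h1 h2
  have hne : ∀ᶠ k in atTop, Γ (a k) ≠ Γ t₀ := ha3.eventually (hΓ.eventually_ne hw)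
  have hbne : ∀ᶠ k in atTop, b k ≠ us := by
    filter_upwards [hne] with k hk h
    apply hk
    rw [← hxb, h, hxus]
  have hb3 : Tendsto b atTop (𝓝[≠] us) := tendsto_nhdsWithin_iff.2 ⟨hb1, hbne⟩
  have s1 : Tendsto (fun k => slope Γ t₀ (a k)) atTop (𝓝 w) :=
    (hasDerivAt_iff_tendsto_slope.1 hΓ).comp ha3
  have s2 : Tendsto (fun k => slope x us (b k)) atTop (𝓝 (Xf P Q (x us))) :=
    (hasDerivAt_iff_tendsto_slope.1 (hs us)).comp hb3
  have s3 : Tendsto (fun k => crs (slope Γ t₀ (a k)) (slope x us (b k))) atTop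
      (𝓝 (crs w (Xf P Q (x us)))) := by
    have := (crs_cont.tendsto (w, Xf P Q (x us))).comp (s1.prodMk_nhds s2)
    exact this
  have s4 : ∀ k, crs (slope Γ t₀ (a k)) (slope x us (b k)) = 0 := by
    intro k
    rw [slope_def_module, slope_def_module, hxb k, hxus]
    unfold crs
    simp only [Prod.smul_fst, Prod.smul_snd, smul_eq_mul]
    ring
  simp_rw [s4] at s3
  have := tendsto_nhds_unique s3 tendsto_const_nhds
  rw [hxus] at this
  exact this

/-- a closed curve which is positively tangent to the field is a closed orbit -/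
lemma closedOrbit_of_pos {P Q : MvPolynomial (Fin 2) ℝ} {Γ Γ' : ℝ → ℝ × ℝ} {ρ : ℝ → ℝ} {T : ℝ}
    (hT : 0 < T) (hΓ : ∀ t, HasDerivAt Γ (Γ' t) t) (hp : ∀ t, Γ (t + T) = Γ t)
    (hρc : Continuous ρ) (hρp : ∀ t, ρ (t + T) = ρ t) (hρ0 : ∀ t, 0 < ρ t)
    (hX : ∀ t, Xf P Q (Γ t) ≠ 0) (h : ∀ t, Γ' t = ρ t • Xf P Q (Γ t)) :
    IsClosedOrbit P Q (Set.range Γ) := by
  -- a lower bound
  obtain ⟨t1, -, ht1⟩ := isCompact_Icc.exists_isMinOn (nonempty_Icc.2 hT.le) hρc.continuousOn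
  have hlow : ∀ t, ρ t1 ≤ ρ t := by
    intro t
    obtain ⟨y, hy, hy2⟩ := Function.Periodic.exists_mem_Ico₀ (f := ρ) hρp hT t
    rw [hy2]
    exact ht1 ⟨hy.1, hy.2.le⟩
  set c := ρ t1 with hc
  have hc0 : 0 < c := hρ0 t1
  set τ : ℝ → ℝ := fun t => ∫ v in (0 : ℝ)..t, ρ v with hτ
  have hτd : ∀ t, HasDerivAt τ (ρ t) t := fun t =>
    intervalIntegral.integral_hasDerivAt_right (hρc.intervalIntegrable _ _)
      hρc.stronglyMeasurable.stronglyMeasurableAtFilter hρc.continuousAt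
  have hτc : Continuous τ := continuous_iff_continuousAt.2 fun t => (hτd t).continuousAt
  have hmono : StrictMono τ := strictMono_of_deriv_pos fun t => by rw [(hτd t).deriv]; exact hρ0 t
  have hlin : ∀ s t, s ≤ t → c * (t - s) ≤ τ t - τ s := by
    intro s t hst
    have h1 : Monotone fun v => τ v - c * v := by
      apply monotone_of_deriv_nonneg
      · exact fun v => ((hτd v).differentiableAt.sub
          ((differentiable_id.const_mul c) v))
      · intro v
        have : HasDerivAt (fun v => τ v - c * v) (ρ v - c * 1) v :=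
          (hτd v).sub ((hasDerivAt_id v).const_mul c)
        rw [this.deriv]
        linarith [hlow v]
    have := h1 hst
    simp only at this
    linarith
  have hτ0 : τ 0 = 0 := by simp [hτ]
  have htop : Tendsto τ atTop atTop := by
    refine tendsto_atTop_mono' atTop (f₁ := fun t => c * t) ?_ (tendsto_id.const_mul_atTop hc0)
    filter_upwards [eventually_ge_atTop (0 : ℝ)] with t ht
    have := hlin 0 t ht
    rw [hτ0] at this
    linarith
  have hbot : Tendsto τ atBot atBot := by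
    refine tendsto_atBot_mono' atBot (f₁ := fun t => c * t) ?_ (tendsto_id.const_mul_atBot hc0)
    filter_upwards [eventually_le_atBot (0 : ℝ)] with t ht
    have := hlin t 0 ht
    rw [hτ0] at this
    linarith
  have hsurj : Function.Surjective τ := hτc.surjective htop hbot
  set e : ℝ ≃o ℝ := hmono.orderIsoOfSurjective τ hsurj with he
  have hec : Continuous e.symm := e.symm.continuous
  have heτ : ∀ s, τ (e.symm s) = s := fun s => e.apply_symm_apply s
  have heτ' : ∀ s, e.symm (τ s) = s := fun s => e.symm_apply_apply s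
  have hed : ∀ s, HasDerivAt e.symm (ρ (e.symm s))⁻¹ s := fun s =>
    HasDerivAt.of_local_left_inverse hec.continuousAt (hτd _) (hρ0 _).ne'
      (Eventually.of_forall heτ)
  have hτp : ∀ t, τ (t + T) = τ t + τ T := by
    intro t
    have h1 := Function.Periodic.intervalIntegral_add_eq (f := ρ) hρp t 0
    rw [zero_add] at h1
    have h2 : τ t + ∫ v in t..(t + T), ρ v = τ (t + T) :=
      intervalIntegral.integral_add_adjacent_intervals (hρc.intervalIntegrable _ _)
        (hρc.intervalIntegrable _ _)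
    rw [← h2, h1]
  have hτT : 0 < τ T := by rw [← hτ0]; exact hmono hT
  have hep : ∀ s, e.symm (s + τ T) = e.symm s + T := by
    intro s
    have : s + τ T = τ (e.symm s + T) := by rw [hτp, heτ]
    rw [this, heτ']
  have hyd : ∀ s, HasDerivAt (fun s => Γ (e.symm s)) (Xf P Q (Γ (e.symm s))) s := by
    intro s
    have h1 := (hΓ (e.symm s)).scomp s (hed s)
    rw [h, smul_smul, inv_mul_cancel₀ (hρ0 _).ne', one_smul] at h1
    exact h1
  refine ⟨fun s => Γ (e.symm s), τ T, hτT, hyd, fun s => ?_, ?_, ?_⟩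
  · simp only
    rw [hep, hp]
  · by_contra hcon
    push Not at hcon
    have hconst : (fun s => Γ (e.symm s)) = fun _ => Γ (e.symm 0) := funext fun s => hcon s 0
    have h1 := hyd 0
    rw [hconst] at h1
    have h2 := h1.unique (hasDerivAt_const (0 : ℝ) (Γ (e.symm 0)))
    exact hX _ h2
  · apply Set.Subset.antisymm
    · rintro _ ⟨t, rfl⟩
      exact ⟨τ t, by simp only; rw [heτ']⟩
    · rintro _ ⟨s, rfl⟩
      exact ⟨e.symm s, rfl⟩

/-- a regular closed curve which is tangent to the field, where the field does not vanish, is a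
closed orbit -/
lemma closedOrbit_of_tangent {P Q : MvPolynomial (Fin 2) ℝ} {Γ Γ' : ℝ → ℝ × ℝ} {T : ℝ}
    (hT : 0 < T) (hΓ : ∀ t, HasDerivAt Γ (Γ' t) t) (hΓc : Continuous Γ')
    (hp : ∀ t, Γ (t + T) = Γ t) (hp' : ∀ t, Γ' (t + T) = Γ' t) (hreg : ∀ t, Γ' t ≠ 0)
    (hX : ∀ t, Xf P Q (Γ t) ≠ 0) (h : ∀ t, crs (Γ' t) (Xf P Q (Γ t)) = 0) :
    IsClosedOrbit P Q (Set.range Γ) := by
  have hcΓ : Continuous Γ := continuous_iff_continuousAt.2 fun t => (hΓ t).continuousAt
  have hcX : Continuous fun t => Xf P Q (Γ t) := (Xf_cont P Q).comp hcΓ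
  set N : ℝ → ℝ := fun t => (Xf P Q (Γ t)).1 ^ 2 + (Xf P Q (Γ t)).2 ^ 2 with hN
  have hN0 : ∀ t, 0 < N t := by
    intro t
    have := hX t
    by_contra hcon
    apply this
    have h1 : (Xf P Q (Γ t)).1 = 0 := by
      simp only [hN] at hcon; nlinarith [sq_nonneg (Xf P Q (Γ t)).1, sq_nonneg (Xf P Q (Γ t)).2]
    have h2 : (Xf P Q (Γ t)).2 = 0 := by
      simp only [hN] at hcon; nlinarith [sq_nonneg (Xf P Q (Γ t)).1, sq_nonneg (Xf P Q (Γ t)).2]
    exact Prod.ext h1 h2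
  set ρ : ℝ → ℝ := fun t => ((Γ' t).1 * (Xf P Q (Γ t)).1 + (Γ' t).2 * (Xf P Q (Γ t)).2) / N t
    with hρ
  have hρc : Continuous ρ := by
    have hNc : Continuous N := by
      simp only [hN]
      exact (hcX.fst.pow 2).add (hcX.snd.pow 2)
    exact ((hΓc.fst.mul hcX.fst).add (hΓc.snd.mul hcX.snd)).div hNc fun t => (hN0 t).ne'
  have hρe : ∀ t, Γ' t = ρ t • Xf P Q (Γ t) := by
    intro t
    have h1 := h t
    have h2 := (hN0 t).ne'
    unfold crs at h1
    refine Prod.ext ?_ ?_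
    · simp only [hρ, Prod.smul_fst, smul_eq_mul]
      rw [div_mul_eq_mul_div, eq_div_iff h2]
      simp only [hN]
      linear_combination (Xf P Q (Γ t)).2 * h1
    · simp only [hρ, Prod.smul_snd, smul_eq_mul]
      rw [div_mul_eq_mul_div, eq_div_iff h2]
      simp only [hN]
      linear_combination (-(Xf P Q (Γ t)).1) * h1
  have hρ0 : ∀ t, ρ t ≠ 0 := by
    intro t h0
    apply hreg t
    rw [hρe t, h0, zero_smul]
  have hρp : ∀ t, ρ (t + T) = ρ t := by
    intro t
    simp only [hρ, hN, hp, hp']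
  rcases lt_or_gt_of_ne (hρ0 0) with hneg | hpos
  · -- reverse the curve
    have hall : ∀ t, ρ t < 0 := by
      intro t
      by_contra hcon
      push Not at hcon
      have h1 : (0 : ℝ) ∈ Set.Icc (ρ 0) (ρ t) := ⟨hneg.le, hcon⟩
      obtain ⟨v, hv⟩ := mem_range_of_exists_le_of_exists_ge hρc ⟨0, h1.1⟩ ⟨t, h1.2⟩
      exact hρ0 v hv
    have hrange : Set.range Γ = Set.range fun t => Γ (-t) := by
      apply Set.Subset.antisymm
      · rintro _ ⟨t, rfl⟩; exact ⟨-t, by simp⟩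
      · rintro _ ⟨t, rfl⟩; exact ⟨-t, rfl⟩
    rw [hrange]
    refine closedOrbit_of_pos (Γ := fun t => Γ (-t)) (Γ' := fun t => -Γ' (-t))
      (ρ := fun t => -ρ (-t)) hT (fun t => ?_) (fun t => ?_) (hρc.comp continuous_neg).neg
      (fun t => ?_) (fun t => by simpa using hall (-t)) (fun t => hX (-t)) (fun t => ?_)
    · have h1 := (hΓ (-t)).scomp t (hasDerivAt_neg t)
      rw [neg_one_smul] at h1
      exact h1
    · rw [← hp (-(t + T))]
      congr 1
      ring
    · rw [← hρp (-(t + T))]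
      congr 2
      ring
    · rw [hρe (-t), neg_smul]
  · have hall : ∀ t, 0 < ρ t := by
      intro t
      by_contra hcon
      push Not at hcon
      obtain ⟨v, hv⟩ := mem_range_of_exists_le_of_exists_ge hρc ⟨t, hcon⟩ ⟨0, hpos.le⟩
      exact hρ0 v hv
    exact closedOrbit_of_pos hT hΓ hp hρc hρp hall hX hρe

end Pool.Agent.U338.HC
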