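import Mathlib
import Pool.Agent.U338.HC.B
import Pool.Agent.U338.HC.C

/-!
# Limit cycles in a finite-dimensional family of closed curves
-/

set_option autoImplicit false
set_option maxHeartbeats 400000

namespace Pool.Agent.U338.HC

open MvPolynomial Filter Topology Set

/-- `C` is a limit cycle -/
def IsLimitCycle (P Q : MvPolynomial (Fin 2) ℝ) (C : Set (ℝ × ℝ)) : Prop :=
  IsClosedOrbit P Q C ∧ ∃ U : Set (ℝ × ℝ), IsOpen U ∧ C ⊆ U ∧
    ∀ C' : Set (ℝ × ℝ), IsClosedOrbit P Q C' → C' ⊆ U → C' = C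

/-- the curve with parameter `c` -/
noncomputable def cur {d : ℕ} {κ : Type} [Fintype κ] (M : κ → MvPolynomial (Fin d) ℝ)
    (g : κ → ℝ → ℝ × ℝ) (c : Fin d → ℝ) (t : ℝ) : ℝ × ℝ := ∑ k, eval c (M k) • g k t

section family

variable {d : ℕ} {κ : Type} [Fintype κ] (M : κ → MvPolynomial (Fin d) ℝ) (g g' : κ → ℝ → ℝ × ℝ)

lemma cur_deriv (hg : ∀ k t, HasDerivAt (g k) (g' k t) t) (c : Fin d → ℝ) (t : ℝ) :
    HasDerivAt (cur M g c) (cur M g' c t) t := by
  unfold cur
  exact HasDerivAt.fun_sum fun k _ => (hg k t).const_smul (eval c (M k))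

lemma cur_cont (hg : ∀ k, Continuous (g k)) :
    Continuous fun z : (Fin d → ℝ) × ℝ => cur M g z.1 z.2 := by
  unfold cur
  refine continuous_finsetSum _ fun k _ => ?_
  exact ((MvPolynomial.continuous_eval (M k)).comp continuous_fst).smul
    ((hg k).comp continuous_snd)

lemma cur_cont' (hg : ∀ k, Continuous (g k)) (c : Fin d → ℝ) : Continuous (cur M g c) := by
  have h : cur M g c = fun t => ∑ k, eval c (M k) • g k t := by
    funext t
    rw [cur]
  rw [h]
  refine continuous_finsetSum _ fun k _ => ?_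
  have h1 := hg k
  fun_prop

/-- the first coordinate as a polynomial in the parameter -/
noncomputable def co1 (t : ℝ) : MvPolynomial (Fin d) ℝ := ∑ k, C (g k t).1 * M k

/-- the second coordinate -/
noncomputable def co2 (t : ℝ) : MvPolynomial (Fin d) ℝ := ∑ k, C (g k t).2 * M k

lemma eval_co1 (c : Fin d → ℝ) (t : ℝ) : eval c (co1 M g t) = (cur M g c t).1 := by
  unfold co1 cur
  rw [map_sum, Prod.fst_sum]
  refine Finset.sum_congr rfl fun k _ => ?_
  rw [map_mul, eval_C, Prod.smul_fst, smul_eq_mul, mul_comm]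

lemma eval_co2 (c : Fin d → ℝ) (t : ℝ) : eval c (co2 M g t) = (cur M g c t).2 := by
  unfold co2 cur
  rw [map_sum, Prod.snd_sum]
  refine Finset.sum_congr rfl fun k _ => ?_
  rw [map_mul, eval_C, Prod.smul_snd, smul_eq_mul, mul_comm]

lemma deg_co1 {m : ℕ} (hM : ∀ k, (M k).totalDegree ≤ m) (t : ℝ) :
    (co1 M g t).totalDegree ≤ m := by
  refine (totalDegree_finsetSum _ _).trans (Finset.sup_le fun k _ => ?_)
  refine (totalDegree_mul _ _).trans ?_
  rw [totalDegree_C, zero_add]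
  exact hM k

lemma deg_co2 {m : ℕ} (hM : ∀ k, (M k).totalDegree ≤ m) (t : ℝ) :
    (co2 M g t).totalDegree ≤ m := by
  refine (totalDegree_finsetSum _ _).trans (Finset.sup_le fun k _ => ?_)
  refine (totalDegree_mul _ _).trans ?_
  rw [totalDegree_C, zero_add]
  exact hM k

end family

lemma totalDegree_bind {d m n : ℕ} (f : Fin 2 → MvPolynomial (Fin d) ℝ)
    (hf : ∀ i, (f i).totalDegree ≤ m) (P : MvPolynomial (Fin 2) ℝ) (hP : P.totalDegree ≤ n) :
    (bind₁ f P).totalDegree ≤ n * m := by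
  conv_lhs => rw [P.as_sum, map_sum]
  refine (totalDegree_finsetSum _ _).trans (Finset.sup_le fun v hv => ?_)
  rw [bind₁_monomial]
  refine (totalDegree_mul _ _).trans ?_
  rw [totalDegree_C, zero_add]
  refine (totalDegree_finsetProd _ _).trans ?_
  have h1 : ∀ i ∈ v.support, (f i ^ v i).totalDegree ≤ v i * m := fun i _ =>
    (totalDegree_pow _ _).trans (Nat.mul_le_mul_left _ (hf i))
  refine (Finset.sum_le_sum h1).trans ?_
  rw [← Finset.sum_mul]
  exact Nat.mul_le_mul_right _ ((le_totalDegree hv).trans hP)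

lemma eval_bind {d : ℕ} (f : Fin 2 → MvPolynomial (Fin d) ℝ) (P : MvPolynomial (Fin 2) ℝ)
    (c : Fin d → ℝ) : eval c (bind₁ f P) = eval ![eval c (f 0), eval c (f 1)] P := by
  have h : (fun i => eval c (f i)) = ![eval c (f 0), eval c (f 1)] := by
    funext i
    fin_cases i <;> rfl
  rw [← h]
  induction P using MvPolynomial.induction_on with
  | C a => simp
  | add p q hp hq => simp [hp, hq]
  | mul_X p j hp => simp [hp]

section family2

variable {d : ℕ} {κ : Type} [Fintype κ] (P Q : MvPolynomial (Fin 2) ℝ)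
  (M : κ → MvPolynomial (Fin d) ℝ) (g g' : κ → ℝ → ℝ × ℝ)

/-- the condition of tangency at the time `t` -/
noncomputable def FF (t : ℝ) : MvPolynomial (Fin d) ℝ :=
  co1 M g' t * bind₁ ![co1 M g t, co2 M g t] Q - co2 M g' t * bind₁ ![co1 M g t, co2 M g t] P

lemma eval_FF (c : Fin d → ℝ) (t : ℝ) :
    eval c (FF P Q M g g' t) = crs (cur M g' c t) (Xf P Q (cur M g c t)) := by
  unfold FF crs Xf
  rw [map_sub, map_mul, map_mul, eval_bind, eval_bind, eval_co1, eval_co2]
  simp only [Matrix.cons_val_zero, Matrix.cons_val_one, eval_co1, eval_co2]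

lemma deg_FF {m n : ℕ} (hP : P.totalDegree ≤ n) (hQ : Q.totalDegree ≤ n)
    (hM : ∀ k, (M k).totalDegree ≤ m) (t : ℝ) : (FF P Q M g g' t).totalDegree ≤ m * (n + 1) := by
  have hf : ∀ i, ((![co1 M g t, co2 M g t] : Fin 2 → MvPolynomial (Fin d) ℝ) i).totalDegree ≤ m := by
    intro i
    fin_cases i
    · exact deg_co1 M g hM t
    · exact deg_co2 M g hM t
  unfold FF
  refine (totalDegree_sub _ _).trans (max_le ?_ ?_)
  · refine (totalDegree_mul _ _).trans ?_
    have h1 := deg_co1 M g' hM t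
    have h2 := totalDegree_bind _ hf Q hQ
    nlinarith
  · refine (totalDegree_mul _ _).trans ?_
    have h1 := deg_co2 M g' hM t
    have h2 := totalDegree_bind _ hf P hP
    nlinarith

/-- one nonnegative polynomial for all conditions of tangency -/
lemma exists_poly {m n : ℕ} (hP : P.totalDegree ≤ n) (hQ : Q.totalDegree ≤ n)
    (hM : ∀ k, (M k).totalDegree ≤ m) : ∃ f : MvPolynomial (Fin d) ℝ,
    f.totalDegree ≤ 2 * (m * (n + 1)) ∧ (∀ c, 0 ≤ eval c f) ∧
    ∀ c, eval c f = 0 ↔ ∀ t, crs (cur M g' c t) (Xf P Q (cur M g c t)) = 0 := by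
  classical
  obtain ⟨s, hs, hspan⟩ := (Submodule.fg_span_iff_fg_span_finset_subset
    (R := MvPolynomial (Fin d) ℝ) (Set.range (FF P Q M g g'))).1 (IsNoetherian.noetherian _)
  refine ⟨∑ F ∈ s, F ^ 2, ?_, ?_, ?_⟩
  · refine (totalDegree_finsetSum _ _).trans (Finset.sup_le fun F hF => ?_)
    obtain ⟨t, rfl⟩ := hs hF
    exact (totalDegree_pow _ _).trans (Nat.mul_le_mul_left _ (deg_FF P Q M g g' hP hQ hM t))
  · intro c
    rw [map_sum]
    exact Finset.sum_nonneg fun F _ => by rw [map_pow]; positivity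
  · intro c
    constructor
    · intro h t
      rw [← eval_FF]
      rw [map_sum] at h
      have h0 : ∀ F ∈ s, eval c F = 0 := by
        intro F hF
        have := (Finset.sum_eq_zero_iff_of_nonneg (fun F _ => by rw [map_pow]; positivity)).1 h F hF
        rw [map_pow] at this
        exact pow_eq_zero_iff (two_ne_zero) |>.1 this
      have hmem : FF P Q M g g' t ∈ Submodule.span (MvPolynomial (Fin d) ℝ)
          (Set.range (FF P Q M g g')) := Submodule.subset_span ⟨t, rfl⟩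
      rw [hspan] at hmem
      refine Submodule.span_induction (p := fun F _ => eval c F = 0) (fun F hF => h0 F hF) ?_ ?_ ?_
        hmem
      · simp
      · intro a b _ _ ha hb; rw [map_add, ha, hb, add_zero]
      · intro a b _ hb; rw [smul_eq_mul, map_mul, hb, mul_zero]
    · intro h
      rw [map_sum]
      refine Finset.sum_eq_zero fun F hF => ?_
      obtain ⟨t, rfl⟩ := hs hF
      rw [map_pow, eval_FF, h t]
      norm_num

end family2

/-- the parameter of a limit cycle is an isolated zero -/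
lemma isolated {d : ℕ} (P Q : MvPolynomial (Fin 2) ℝ) {κ : Type} [Fintype κ]
    (M : κ → MvPolynomial (Fin d) ℝ) (g g' : κ → ℝ → ℝ × ℝ)
    (hg : ∀ k t, HasDerivAt (g k) (g' k t) t) (hg' : ∀ k, Continuous (g' k)) (T : ℝ) (hT : 0 < T)
    (hcp : ∀ c t, cur M g c (t + T) = cur M g c t) (hcp' : ∀ c t, cur M g' c (t + T) = cur M g' c t)
    (f : MvPolynomial (Fin d) ℝ)
    (hf : ∀ c, eval c f = 0 ↔ ∀ t, crs (cur M g' c t) (Xf P Q (cur M g c t)) = 0)
    (C : Set (ℝ × ℝ)) (hC : IsLimitCycle P Q C) (c₁ : Fin d → ℝ) (hreg : ∀ t, cur M g' c₁ t ≠ 0)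
    (hrange : C = Set.range (cur M g c₁))
    (hfaith : ∀ᶠ c' in 𝓝 c₁, Set.range (cur M g c') = Set.range (cur M g c₁) → c' = c₁) :
    eval c₁ f = 0 ∧ ∃ r > 0, ∀ y, y ≠ c₁ → dist y c₁ ≤ r → eval y f ≠ 0 := by
  have hgc : ∀ k, Continuous (g k) := fun k =>
    continuous_iff_continuousAt.2 fun t => (hg k t).continuousAt
  obtain ⟨⟨x, T', hT', hx, hxp, hxn, hCx⟩, U, hU, hCU, hUC⟩ := hC
  have hx' : ∀ t, HasDerivAt x (Xf P Q (x t)) t := hx
  have hmemC : ∀ t, cur M g c₁ t ∈ C := by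
    intro t; rw [hrange]; exact ⟨t, rfl⟩
  have hmemx : ∀ t, cur M g c₁ t ∈ Set.range x := by
    intro t; rw [← hCx]; exact hmemC t
  have htan : ∀ t, crs (cur M g' c₁ t) (Xf P Q (cur M g c₁ t)) = 0 := fun t =>
    tangent hT' hx' hxp (hreg t) (cur_deriv M g g' hg c₁ t) hmemx
  refine ⟨(hf _).2 htan, ?_⟩
  have hXne : ∀ t, Xf P Q (cur M g c₁ t) ≠ 0 := by
    intro t
    obtain ⟨s, hs⟩ := hmemx t
    rw [← hs]
    exact ne_zero_of_closedOrbit hT' hx' hxp hxn s
  -- nearby parameters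
  have c1 := cur_cont M g hgc
  have c2 := cur_cont M g' hg'
  have hev : ∀ᶠ c in 𝓝 c₁, ∀ t ∈ Set.Icc 0 T, cur M g c t ∈ U ∧ cur M g' c t ≠ 0 ∧
      Xf P Q (cur M g c t) ≠ 0 := by
    refine isCompact_Icc.eventually_forall_of_forall_eventually (P := fun c t =>
      cur M g c t ∈ U ∧ cur M g' c t ≠ 0 ∧ Xf P Q (cur M g c t) ≠ 0) fun t _ => ?_
    have k1 : ∀ᶠ z : (Fin d → ℝ) × ℝ in 𝓝 (c₁, t), cur M g z.1 z.2 ∈ U :=
      (c1.tendsto (c₁, t)).eventually (hU.mem_nhds (hCU (hmemC t)))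
    have k2 : ∀ᶠ z : (Fin d → ℝ) × ℝ in 𝓝 (c₁, t), cur M g' z.1 z.2 ≠ 0 :=
      (c2.tendsto (c₁, t)).eventually_ne (hreg t)
    have k3 : ∀ᶠ z : (Fin d → ℝ) × ℝ in 𝓝 (c₁, t), Xf P Q (cur M g z.1 z.2) ≠ 0 :=
      (((Xf_cont P Q).comp c1).tendsto (c₁, t)).eventually_ne (hXne t)
    exact k1.and (k2.and k3)
  have hiso : ∀ᶠ c in 𝓝 c₁, eval c f = 0 → c = c₁ := by
    filter_upwards [hev, hfaith] with c h1 h2 h3
    apply h2
    have hall : ∀ t, cur M g c t ∈ U ∧ cur M g' c t ≠ 0 ∧ Xf P Q (cur M g c t) ≠ 0 := by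
      intro t
      have hperi : Function.Periodic (fun t => (cur M g c t, cur M g' c t)) T := by
        intro t
        exact Prod.ext (hcp c t) (hcp' c t)
      obtain ⟨y, hy, hy2⟩ := hperi.exists_mem_Ico₀ hT t
      have e1 : cur M g c t = cur M g c y := congrArg Prod.fst hy2
      have e2 : cur M g' c t = cur M g' c y := congrArg Prod.snd hy2
      rw [e1, e2]
      exact h1 y ⟨hy.1, hy.2.le⟩
    have hc3 : Continuous fun t : ℝ => ((c, t) : (Fin d → ℝ) × ℝ) :=
      continuous_const.prodMk continuous_id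
    have hc4 : Continuous (cur M g' c) := cur_cont' M g' hg' c
    have hcl : IsClosedOrbit P Q (Set.range (cur M g c)) :=
      closedOrbit_of_tangent hT (cur_deriv M g g' hg c) hc4 (hcp c) (hcp' c)
        (fun t => (hall t).2.1) (fun t => (hall t).2.2) ((hf c).1 h3)
    have hsub : Set.range (cur M g c) ⊆ U := by
      rintro _ ⟨t, rfl⟩
      exact (hall t).1
    exact (hUC _ hcl hsub).trans hrange
  obtain ⟨ε, hε, hball⟩ := Metric.eventually_nhds_iff.1 hiso
  refine ⟨ε / 2, half_pos hε, fun y hy hd h0 => hy (hball ?_ h0)⟩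
  linarith

/-- **Limit cycles in a family of closed curves.** -/
theorem family_bound {n m d : ℕ} (P Q : MvPolynomial (Fin 2) ℝ) (hP : P.totalDegree ≤ n)
    (hQ : Q.totalDegree ≤ n) {κ : Type} [Fintype κ] (M : κ → MvPolynomial (Fin d) ℝ)
    (hM : ∀ k, (M k).totalDegree ≤ m) (g g' : κ → ℝ → ℝ × ℝ)
    (hg : ∀ k t, HasDerivAt (g k) (g' k t) t) (hg' : ∀ k, Continuous (g' k)) (T : ℝ) (hT : 0 < T)
    (hper : ∀ k t, g k (t + T) = g k t) (S : Finset (Set (ℝ × ℝ)))
    (hS : ∀ C ∈ S, IsLimitCycle P Q C ∧ ∃ c : Fin d → ℝ, (∀ t, cur M g' c t ≠ 0) ∧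
      C = Set.range (cur M g c) ∧
      ∀ᶠ c' in 𝓝 c, Set.range (cur M g c') = Set.range (cur M g c) → c' = c) :
    S.card ≤ (2 * (m * (n + 1)) + 1) ^ d := by
  classical
  have hper' : ∀ k t, g' k (t + T) = g' k t := by
    intro k t
    have h1 : HasDerivAt (fun s => g k (s + T)) (g' k (t + T)) t := (hg k (t + T)).comp_add_const t T
    have h2 : (fun s => g k (s + T)) = g k := funext fun s => hper k s
    rw [h2] at h1
    exact h1.unique (hg k t)
  have hcp : ∀ c t, cur M g c (t + T) = cur M g c t := by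
    intro c t; unfold cur; simp_rw [hper]
  have hcp' : ∀ c t, cur M g' c (t + T) = cur M g' c t := by
    intro c t; unfold cur; simp_rw [hper']
  obtain ⟨f, hfdeg, hf0, hf⟩ := exists_poly P Q M g g' hP hQ hM
  have hex : ∀ C : Set (ℝ × ℝ), ∃ c : Fin d → ℝ, C ∈ S → (∀ t, cur M g' c t ≠ 0) ∧
      C = Set.range (cur M g c) ∧
      ∀ᶠ c' in 𝓝 c, Set.range (cur M g c') = Set.range (cur M g c) → c' = c := by
    intro C
    by_cases hC : C ∈ S
    · obtain ⟨c, hc⟩ := (hS C hC).2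
      exact ⟨c, fun _ => hc⟩
    · exact ⟨0, fun h => absurd h hC⟩
  choose φ hφ using hex
  have hinj : Set.InjOn φ S := by
    intro C hC C' hC' h
    rw [(hφ C hC).2.1, (hφ C' hC').2.1, h]
  rw [← Finset.card_image_of_injOn hinj]
  refine card_isolated_le f hfdeg hf0 _ fun c₀ hc₀ => ?_
  obtain ⟨C, hC, hCe⟩ := Finset.mem_image.1 hc₀
  obtain ⟨h1, h2, h3⟩ := hφ C hC
  rw [hCe] at h1 h2 h3
  exact isolated P Q M g g' hg hg' T hT hcp hcp' f hf C (hS C hC).1 c₀ h1 h2 h3

end Pool.Agent.U338.HC
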