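import Mathlib
import Pool.Agent.U338.HC.D

/-!
# Homothetic limit cycles
-/

set_option autoImplicit false
set_option maxHeartbeats 1000000

namespace Pool.Agent.U338.HC

open MvPolynomial Filter Topology Set
open scoped Pointwise

/-- `C'` is homothetic to `C` -/
def Homothetic (C C' : Set (ℝ × ℝ)) : Prop :=
  ∃ (a : ℝ × ℝ) (s : ℝ), s ≠ 0 ∧ C' = (fun p => a + s • p) '' C

/-- `C'` is a translate of `C` -/
def TranslateOf (C C' : Set (ℝ × ℝ)) : Prop := ∃ a : ℝ × ℝ, C' = (fun p => a + p) '' C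

lemma trans_inj {C₁ : Set (ℝ × ℝ)} (hb : Bornology.IsBounded C₁) (hne : C₁.Nonempty) {v : ℝ × ℝ}
    (h : ∀ p ∈ C₁, p + v ∈ C₁) : v = 0 := by
  obtain ⟨p, hp⟩ := hne
  have h1 : ∀ k : ℕ, p + (k : ℝ) • v ∈ C₁ := by
    intro k
    induction k with
    | zero => simpa using hp
    | succ k ih =>
      have h2 := h _ ih
      have h3 : p + (k : ℝ) • v + v = p + ((k + 1 : ℕ) : ℝ) • v := by
        push_cast
        rw [add_smul, one_smul, add_assoc]
      rwa [h3] at h2
  by_contra hv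
  have hv' : 0 < ‖v‖ := norm_pos_iff.2 hv
  obtain ⟨k, hk⟩ := exists_nat_gt (Metric.diam C₁ / ‖v‖)
  have h2 := Metric.dist_le_diam_of_mem hb (h1 k) hp
  rw [dist_eq_norm, add_sub_cancel_left, norm_smul, Real.norm_of_nonneg (Nat.cast_nonneg k)] at h2
  rw [div_lt_iff₀ hv'] at hk
  linarith

lemma diam_hom (a : ℝ × ℝ) (s : ℝ) (C : Set (ℝ × ℝ)) :
    Metric.diam ((fun p => a + s • p) '' C) = |s| * Metric.diam C := by
  have h1 : (fun p : ℝ × ℝ => a + s • p) '' C = (fun p => a + p) '' (s • C) := by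
    rw [← Set.image_smul, Set.image_image]
  rw [h1, (isometry_add_left a).diam_image, diam_smul₀, Real.norm_eq_abs]

lemma hom_inj {C₀ : Set (ℝ × ℝ)} (hb : Bornology.IsBounded C₀) (hn : C₀.Nontrivial)
    {a a' : ℝ × ℝ} {s s' : ℝ} (hss : 0 < s * s')
    (h : (fun p => a' + s' • p) '' C₀ = (fun p => a + s • p) '' C₀) : a' = a ∧ s' = s := by
  have hD : 0 < Metric.diam C₀ := by
    obtain ⟨p, hp, q, hq, hpq⟩ := hn
    exact (dist_pos.2 hpq).trans_le (Metric.dist_le_diam_of_mem hb hp hq)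
  have h1 : |s'| = |s| := by
    have := congrArg Metric.diam h
    rw [diam_hom, diam_hom] at this
    exact mul_right_cancel₀ hD.ne' this
  have hs : s' = s := by
    rcases abs_eq_abs.1 h1 with h2 | h2
    · exact h2
    · rw [h2] at hss
      nlinarith [sq_nonneg s]
  refine ⟨?_, hs⟩
  subst hs
  have hbI : Bornology.IsBounded ((fun p => a + s' • p) '' C₀) := by
    have hl : LipschitzWith (‖s'‖₊) (fun p : ℝ × ℝ => a + s' • p) := by
      refine LipschitzWith.of_dist_le_mul fun p q => ?_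
      rw [dist_add_left, dist_smul₀]
      rfl
    exact hl.isBounded_image hb
  have h3 := trans_inj hbI (hn.nonempty.image _) (v := a' - a) (by
    rintro _ ⟨p, hp, rfl⟩
    rw [← h]
    refine ⟨p, hp, ?_⟩
    simp only
    abel)
  exact sub_eq_zero.1 h3

/-- the curves homothetic to `γ` -/
noncomputable def gh (γ : ℝ → ℝ × ℝ) : Fin 3 → ℝ → ℝ × ℝ := ![fun _ => (1, 0), fun _ => (0, 1), γ]

lemma cur_hom (γ : ℝ → ℝ × ℝ) (c : Fin 3 → ℝ) (t : ℝ) :
    cur (fun k : Fin 3 => (X k : MvPolynomial (Fin 3) ℝ)) (gh γ) c t = (c 0, c 1) + c 2 • γ t := by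
  unfold cur gh
  rw [Fin.sum_univ_three]
  simp only [eval_X, Matrix.cons_val_zero, Matrix.cons_val_one, Matrix.cons_val_two,
    Matrix.tail_cons, Matrix.head_cons]
  congr 1
  ext <;> simp

/-- the derivatives -/
noncomputable def gh' (γ' : ℝ → ℝ × ℝ) : Fin 3 → ℝ → ℝ × ℝ := ![fun _ => 0, fun _ => 0, γ']

lemma cur_hom' (γ' : ℝ → ℝ × ℝ) (c : Fin 3 → ℝ) (t : ℝ) :
    cur (fun k : Fin 3 => (X k : MvPolynomial (Fin 3) ℝ)) (gh' γ') c t = c 2 • γ' t := by
  unfold cur gh'
  rw [Fin.sum_univ_three]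
  simp

/-- at most `(2 n + 3) ^ 3` limit cycles are pairwise homothetic -/
theorem homothetic_bound {n : ℕ} (P Q : MvPolynomial (Fin 2) ℝ) (hP : P.totalDegree ≤ n)
    (hQ : Q.totalDegree ≤ n) (S : Finset (Set (ℝ × ℝ))) (hS : ∀ C ∈ S, IsLimitCycle P Q C)
    (hh : ∀ C ∈ S, ∀ C' ∈ S, Homothetic C C') : S.card ≤ (2 * n + 3) ^ 3 := by
  rcases S.eq_empty_or_nonempty with hE | ⟨C₀, hC₀⟩
  · rw [hE]; simp
  obtain ⟨⟨γ, T, hT, hγ, hγp, hγn, hCγ⟩, -⟩ := hS C₀ hC₀
  have hγ' : ∀ t, HasDerivAt γ (Xf P Q (γ t)) t := hγ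
  have hγc : Continuous γ := continuous_iff_continuousAt.2 fun t => (hγ t).continuousAt
  have hXc : Continuous fun t => Xf P Q (γ t) := (Xf_cont P Q).comp hγc
  have hb : Bornology.IsBounded C₀ := by
    rw [hCγ]; exact (range_compact hT hγp hγc).isBounded
  have hn : C₀.Nontrivial := by
    obtain ⟨s, t, hst⟩ := hγn
    rw [hCγ]
    exact ⟨γ s, ⟨s, rfl⟩, γ t, ⟨t, rfl⟩, hst⟩
  have key := family_bound (n := n) (m := 1) (d := 3) P Q hP hQ
    (fun k : Fin 3 => (X k : MvPolynomial (Fin 3) ℝ)) (fun k => (totalDegree_X k).le)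
    (gh γ) (gh' fun t => Xf P Q (γ t)) (by
      intro k t
      fin_cases k
      · exact hasDerivAt_const t _
      · exact hasDerivAt_const t _
      · exact hγ' t) (by
      intro k
      fin_cases k
      · exact continuous_const
      · exact continuous_const
      · exact hXc) T hT (by
      intro k t
      fin_cases k
      · rfl
      · rfl
      · exact hγp t) S (by
      intro C hC
      refine ⟨hS C hC, ?_⟩
      obtain ⟨a, s, hs, hCa⟩ := hh C₀ hC₀ C hC
      have hrg : ∀ c : Fin 3 → ℝ, Set.range (cur (fun k : Fin 3 => (X k : MvPolynomial (Fin 3) ℝ))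
          (gh γ) c) = (fun p => (c 0, c 1) + c 2 • p) '' C₀ := by
        intro c
        rw [hCγ]
        ext p
        constructor
        · rintro ⟨t, rfl⟩
          exact ⟨γ t, ⟨t, rfl⟩, (cur_hom γ c t).symm⟩
        · rintro ⟨_, ⟨t, rfl⟩, rfl⟩
          exact ⟨t, cur_hom γ c t⟩
      refine ⟨![a.1, a.2, s], fun t => ?_, ?_, ?_⟩
      · rw [cur_hom']
        exact smul_ne_zero hs (ne_zero_of_closedOrbit hT hγ' hγp hγn t)
      · rw [hrg]
        exact hCa
      · have hev : ∀ᶠ c' : Fin 3 → ℝ in 𝓝 ![a.1, a.2, s], 0 < s * c' 2 := by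
          have hc : Continuous fun c' : Fin 3 → ℝ => s * c' 2 :=
            continuous_const.mul (continuous_apply 2)
          have h1 : (0 : ℝ) < s * (![a.1, a.2, s] : Fin 3 → ℝ) 2 := by
            change 0 < s * s
            exact mul_self_pos.2 hs
          exact (hc.tendsto _).eventually_const_lt h1
        filter_upwards [hev] with c' h1 h2
        rw [hrg, hrg] at h2
        obtain ⟨h3, h4⟩ := hom_inj hb hn (a := (a.1, a.2)) (s := s) h1 h2
        funext i
        fin_cases i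
        · exact congrArg Prod.fst h3
        · exact congrArg Prod.snd h3
        · exact h4)
  calc S.card ≤ (2 * (1 * (n + 1)) + 1) ^ 3 := key
    _ = (2 * n + 3) ^ 3 := by ring

lemma cur_tr (γ : ℝ → ℝ × ℝ) (c : Fin 2 → ℝ) (t : ℝ) :
    cur (![X 0, X 1, 1] : Fin 3 → MvPolynomial (Fin 2) ℝ) (gh γ) c t = (c 0, c 1) + γ t := by
  unfold cur gh
  rw [Fin.sum_univ_three]
  simp only [Matrix.cons_val_zero, Matrix.cons_val_one, Matrix.cons_val_two,
    Matrix.tail_cons, Matrix.head_cons, eval_X, map_one, one_smul]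
  congr 1
  ext <;> simp

lemma cur_tr' (γ' : ℝ → ℝ × ℝ) (c : Fin 2 → ℝ) (t : ℝ) :
    cur (![X 0, X 1, 1] : Fin 3 → MvPolynomial (Fin 2) ℝ) (gh' γ') c t = γ' t := by
  unfold cur gh'
  rw [Fin.sum_univ_three]
  simp

/-- at most `(2 n + 3) ^ 2` limit cycles are pairwise translates -/
theorem translate_bound {n : ℕ} (P Q : MvPolynomial (Fin 2) ℝ) (hP : P.totalDegree ≤ n)
    (hQ : Q.totalDegree ≤ n) (S : Finset (Set (ℝ × ℝ))) (hS : ∀ C ∈ S, IsLimitCycle P Q C)
    (hh : ∀ C ∈ S, ∀ C' ∈ S, TranslateOf C C') : S.card ≤ (2 * n + 3) ^ 2 := by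
  rcases S.eq_empty_or_nonempty with hE | ⟨C₀, hC₀⟩
  · rw [hE]; simp
  obtain ⟨⟨γ, T, hT, hγ, hγp, hγn, hCγ⟩, -⟩ := hS C₀ hC₀
  have hγ' : ∀ t, HasDerivAt γ (Xf P Q (γ t)) t := hγ
  have hγc : Continuous γ := continuous_iff_continuousAt.2 fun t => (hγ t).continuousAt
  have hXc : Continuous fun t => Xf P Q (γ t) := (Xf_cont P Q).comp hγc
  have hb : Bornology.IsBounded C₀ := by
    rw [hCγ]; exact (range_compact hT hγp hγc).isBounded
  have hn : C₀.Nontrivial := by
    obtain ⟨s, t, hst⟩ := hγn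
    rw [hCγ]
    exact ⟨γ s, ⟨s, rfl⟩, γ t, ⟨t, rfl⟩, hst⟩
  have key := family_bound (n := n) (m := 1) (d := 2) P Q hP hQ
    (![X 0, X 1, 1] : Fin 3 → MvPolynomial (Fin 2) ℝ) (by
      intro k
      fin_cases k
      · exact (totalDegree_X (R := ℝ) (0 : Fin 2)).le
      · exact (totalDegree_X (R := ℝ) (1 : Fin 2)).le
      · change (1 : MvPolynomial (Fin 2) ℝ).totalDegree ≤ 1
        rw [totalDegree_one]
        exact zero_le_one)
    (gh γ) (gh' fun t => Xf P Q (γ t)) (by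
      intro k t
      fin_cases k
      · exact hasDerivAt_const t _
      · exact hasDerivAt_const t _
      · exact hγ' t) (by
      intro k
      fin_cases k
      · exact continuous_const
      · exact continuous_const
      · exact hXc) T hT (by
      intro k t
      fin_cases k
      · rfl
      · rfl
      · exact hγp t) S (by
      intro C hC
      refine ⟨hS C hC, ?_⟩
      obtain ⟨a, hCa⟩ := hh C₀ hC₀ C hC
      have hrg : ∀ c : Fin 2 → ℝ, Set.range (cur (![X 0, X 1, 1] :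
          Fin 3 → MvPolynomial (Fin 2) ℝ) (gh γ) c) = (fun p => (c 0, c 1) + p) '' C₀ := by
        intro c
        rw [hCγ]
        ext p
        constructor
        · rintro ⟨t, rfl⟩
          exact ⟨γ t, ⟨t, rfl⟩, (cur_tr γ c t).symm⟩
        · rintro ⟨_, ⟨t, rfl⟩, rfl⟩
          exact ⟨t, cur_tr γ c t⟩
      refine ⟨![a.1, a.2], fun t => ?_, ?_, ?_⟩
      · rw [cur_tr']
        exact ne_zero_of_closedOrbit hT hγ' hγp hγn t
      · rw [hrg]
        exact hCa
      · refine Eventually.of_forall fun c' h2 => ?_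
        rw [hrg, hrg] at h2
        obtain ⟨h3, -⟩ := hom_inj hb hn (a := (a.1, a.2)) (a' := (c' 0, c' 1)) (s := 1) (s' := 1)
          (by norm_num) (by simp only [one_smul]; exact h2)
        funext i
        fin_cases i
        · exact congrArg Prod.fst h3
        · exact congrArg Prod.snd h3)
  calc S.card ≤ (2 * (1 * (n + 1)) + 1) ^ 2 := key
    _ = (2 * n + 3) ^ 2 := by ring

end Pool.Agent.U338.HC
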